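import Mathlib

/-!
# Complete Boolean algebras with a continuous outer measure

Definitions: complete subalgebras, measures, continuous outer measures.
-/

set_option autoImplicit false

namespace H429.MB

universe u

variable {B : Type u} [CompleteBooleanAlgebra B]

/-- A complete subalgebra of `B`: a set closed under complements and under all suprema and infima
taken in `B` (in particular it contains the bottom and the top element). -/
structure IsCompleteSubalgebra (A : Set B) : Prop where
  compl_mem : ∀ a ∈ A, aᶜ ∈ A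
  sSup_mem : ∀ S : Set B, S ⊆ A → sSup S ∈ A
  sInf_mem : ∀ S : Set B, S ⊆ A → sInf S ∈ A

/-- The smallest complete subalgebra of `B` containing the set `S`. -/
def generated (S : Set B) : Set B := ⋂₀ {A : Set B | IsCompleteSubalgebra A ∧ S ⊆ A}

/-- `μ`, restricted to the complete subalgebra `A`, is a measure: finite, nonnegative, strictly
positive, countably additive. -/
structure IsMeasureOn (A : Set B) (μ : B → ℝ) : Prop where
  nonneg : ∀ a ∈ A, 0 ≤ μ a
  pos : ∀ a ∈ A, a ≠ ⊥ → 0 < μ a
  add : ∀ f : ℕ → B, (∀ n, f n ∈ A) → (∀ i j, i ≠ j → Disjoint (f i) (f j)) →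
    HasSum (fun n => μ (f n)) (μ (⨆ n, f n))

/-- A continuous outer measure on `B`. -/
structure IsContinuousOuterMeasure (m : B → ℝ) : Prop where
  nonneg : ∀ a, 0 ≤ m a
  bot : m ⊥ = 0
  pos : ∀ a, a ≠ ⊥ → 0 < m a
  mono : ∀ a b, a ≤ b → m a ≤ m b
  sup_le : ∀ a b, m (a ⊔ b) ≤ m a + m b
  cont : ∀ f : ℕ → B, Antitone f → (⨅ n, f n) = ⊥ →
    Filter.Tendsto (fun n => m (f n)) Filter.atTop (nhds 0)

end H429.MB
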