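import Pool.Agent.Run7.h429.MB.Defs

set_option autoImplicit false

namespace H429.MB

universe u

open Filter Topology

variable {B : Type u} [CompleteBooleanAlgebra B]

/-! ### complete subalgebras -/

theorem generated_sub (S : Set B) : S ⊆ generated S :=
  fun _ hx _ hA => hA.2 hx

theorem generated_isCompleteSubalgebra (S : Set B) : IsCompleteSubalgebra (generated S) where
  compl_mem a ha := fun A hA => hA.1.compl_mem a (ha A hA)
  sSup_mem T hT := fun A hA => hA.1.sSup_mem T fun _ hx => hT hx A hA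
  sInf_mem T hT := fun A hA => hA.1.sInf_mem T fun _ hx => hT hx A hA

namespace IsCompleteSubalgebra

variable {A : Set B} (hA : IsCompleteSubalgebra A)
include hA

theorem bot_mem : (⊥ : B) ∈ A := by
  have := hA.sSup_mem ∅ (Set.empty_subset _)
  simpa using this

theorem top_mem : (⊤ : B) ∈ A := by
  have := hA.sInf_mem ∅ (Set.empty_subset _)
  simpa using this

theorem iSup_mem {ι : Sort*} (f : ι → B) (hf : ∀ i, f i ∈ A) : (⨆ i, f i) ∈ A :=
  hA.sSup_mem _ (by rintro _ ⟨i, rfl⟩; exact hf i)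

theorem iInf_mem {ι : Sort*} (f : ι → B) (hf : ∀ i, f i ∈ A) : (⨅ i, f i) ∈ A :=
  hA.sInf_mem _ (by rintro _ ⟨i, rfl⟩; exact hf i)

theorem sup_mem {a b : B} (ha : a ∈ A) (hb : b ∈ A) : a ⊔ b ∈ A := by
  have := hA.sSup_mem {a, b} (by intro x hx; rcases hx with rfl | rfl <;> assumption)
  simpa [sSup_pair] using this

theorem inf_mem {a b : B} (ha : a ∈ A) (hb : b ∈ A) : a ⊓ b ∈ A := by
  have := hA.sInf_mem {a, b} (by intro x hx; rcases hx with rfl | rfl <;> assumption)
  simpa [sInf_pair] using this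

theorem sdiff_mem {a b : B} (ha : a ∈ A) (hb : b ∈ A) : a \ b ∈ A := by
  rw [sdiff_eq]
  exact hA.inf_mem ha (hA.compl_mem b hb)

theorem disjointed_mem (f : ℕ → B) (hf : ∀ i, f i ∈ A) (n : ℕ) : disjointed f n ∈ A := by
  rw [disjointed_apply]
  refine hA.sdiff_mem (hf n) ?_
  rw [Finset.sup_eq_iSup]
  exact hA.iSup_mem _ fun i => hA.iSup_mem _ fun _ => hf i

end IsCompleteSubalgebra

/-! ### measures on complete subalgebras -/

namespace IsMeasureOn

variable {A : Set B} {μ : B → ℝ} (hA : IsCompleteSubalgebra A) (hμ : IsMeasureOn A μ)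
include hA hμ

theorem bot : μ ⊥ = 0 := by
  have h := hμ.add (fun _ => ⊥) (fun _ => hA.bot_mem) (fun _ _ _ => disjoint_bot_left)
  have h2 := h.summable.tendsto_atTop_zero
  exact tendsto_nhds_unique tendsto_const_nhds h2

theorem add2 {a b : B} (ha : a ∈ A) (hb : b ∈ A) (hab : Disjoint a b) :
    μ (a ⊔ b) = μ a + μ b := by
  have hbot := bot hA hμ
  set f : ℕ → B := fun n => if n = 0 then a else if n = 1 then b else ⊥ with hf
  have hfA : ∀ n, f n ∈ A := by
    intro n
    simp only [hf]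
    split_ifs
    · exact ha
    · exact hb
    · exact hA.bot_mem
  have hdis : ∀ i j, i ≠ j → Disjoint (f i) (f j) := by
    intro i j hij
    simp only [hf]
    split_ifs with h1 h2 h3 h4 h5 h6 h7 <;> first
      | exact disjoint_bot_left
      | exact disjoint_bot_right
      | exact hab
      | exact hab.symm
      | (exfalso; omega)
  have h := hμ.add f hfA hdis
  have hs : (⨆ n, f n) = a ⊔ b := by
    apply le_antisymm
    · refine iSup_le fun n => ?_
      simp only [hf]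
      split_ifs
      · exact le_sup_left
      · exact le_sup_right
      · exact bot_le
    · refine sup_le ?_ ?_
      · exact le_iSup_of_le 0 (by simp [hf])
      · exact le_iSup_of_le 1 (by simp [hf])
  rw [hs] at h
  have h2 : HasSum (fun n => μ (f n)) (∑ n ∈ Finset.range 2, μ (f n)) := by
    refine hasSum_sum_of_ne_finset_zero ?_
    intro n hn
    have : 2 ≤ n := by
      have := Finset.mem_range.not.1 hn
      omega
    simp only [hf]
    rw [if_neg (by omega), if_neg (by omega), hbot]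
  have h3 := h.unique h2
  rw [h3]
  simp [Finset.sum_range_succ, hf]

theorem mono {a b : B} (ha : a ∈ A) (hb : b ∈ A) (hab : a ≤ b) : μ a ≤ μ b := by
  have h := add2 hA hμ ha (hA.sdiff_mem hb ha) disjoint_sdiff_self_right
  rw [sup_sdiff_cancel_right hab] at h
  have := hμ.nonneg _ (hA.sdiff_mem hb ha)
  linarith

/-- countable subadditivity -/
theorem iSup_le (f : ℕ → B) (hf : ∀ n, f n ∈ A) (c : ℕ → ℝ) (hc : ∀ n, μ (f n) ≤ c n) (s : ℝ)
    (hs : HasSum c s) : μ (⨆ n, f n) ≤ s := by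
  have h1 := hμ.add (disjointed f) (hA.disjointed_mem f hf)
    (fun i j hij => disjoint_disjointed f hij)
  rw [iSup_disjointed] at h1
  exact hasSum_le (fun n => (mono hA hμ (hA.disjointed_mem f hf n) (hf n)
    (disjointed_le f n)).trans (hc n)) h1 hs

end IsMeasureOn

/-! ### comparison of `m` with a measure on a complete subalgebra -/

theorem abs_cont {m : B → ℝ} (hm : IsContinuousOuterMeasure m) {A : Set B} {μ : B → ℝ}
    (hA : IsCompleteSubalgebra A) (hμ : IsMeasureOn A μ) {ε : ℝ} (hε : 0 < ε) :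
    ∃ δ : ℝ, 0 < δ ∧ ∀ a ∈ A, ε ≤ m a → δ ≤ μ a := by
  by_contra hcon
  push Not at hcon
  have h1 : ∀ k : ℕ, ∃ a ∈ A, ε ≤ m a ∧ μ a < (1 / 2 : ℝ) ^ k := fun k =>
    hcon _ (by positivity)
  choose a haA hma hμa using h1
  set b : ℕ → B := fun k => ⨆ j, a (k + j) with hb
  have hbA : ∀ k, b k ∈ A := fun k => hA.iSup_mem _ fun j => haA _
  have hanti : Antitone b := by
    refine antitone_nat_of_succ_le fun k => ?_
    refine iSup_le fun j => ?_
    exact le_iSup_of_le (j + 1) (le_of_eq (by congr 1; ring))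
  have hbμ : ∀ k, μ (b k) ≤ (1 / 2 : ℝ) ^ k * 2 := by
    intro k
    refine IsMeasureOn.iSup_le hA hμ (fun j => a (k + j)) (fun j => haA _)
      (fun j => (1 / 2 : ℝ) ^ k * (1 / 2 : ℝ) ^ j) (fun j => ?_) _ ?_
    · have := (hμa (k + j)).le
      rwa [pow_add] at this
    · exact hasSum_geometric_two.mul_left _
  have hbot : (⨅ k, b k) = ⊥ := by
    by_contra hne
    have hmem : (⨅ k, b k) ∈ A := hA.iInf_mem _ hbA
    have hpos := hμ.pos _ hmem hne
    have hle : ∀ k, μ (⨅ k, b k) ≤ (1 / 2 : ℝ) ^ k * 2 := fun k =>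
      (IsMeasureOn.mono hA hμ hmem (hbA k) (iInf_le _ k)).trans (hbμ k)
    have hlim : Tendsto (fun k : ℕ => (1 / 2 : ℝ) ^ k * 2) atTop (𝓝 (0 * 2)) :=
      (tendsto_pow_atTop_nhds_zero_of_lt_one (by norm_num) (by norm_num)).mul_const 2
    have := ge_of_tendsto' hlim hle
    linarith
  have hlim := hm.cont b hanti hbot
  have hge : ∀ k, ε ≤ m (b k) := fun k =>
    (hma k).trans (hm.mono _ _ (le_iSup_of_le 0 (by simp)))
  have := ge_of_tendsto' hlim hge
  linarith

/-! ### finitely additive functions -/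

/-- finitely additive nonnegative functions -/
structure IsCharge (ν : B → ℝ) : Prop where
  nonneg : ∀ a, 0 ≤ ν a
  add : ∀ a b, Disjoint a b → ν (a ⊔ b) = ν a + ν b

theorem IsCharge.bot {ν : B → ℝ} (hν : IsCharge ν) : ν ⊥ = 0 := by
  have := hν.add ⊥ ⊥ disjoint_bot_left
  simp only [sup_idem] at this
  linarith

theorem IsCharge.mono {ν : B → ℝ} (hν : IsCharge ν) {a b : B} (h : a ≤ b) : ν a ≤ ν b := by
  have h1 := hν.add a (b \ a) disjoint_sdiff_self_right
  rw [sup_sdiff_cancel_right h] at h1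
  have := hν.nonneg (b \ a)
  linarith

theorem IsCharge.sup_le {ν : B → ℝ} (hν : IsCharge ν) (a b : B) : ν (a ⊔ b) ≤ ν a + ν b := by
  have h1 := hν.add a (b \ a) disjoint_sdiff_self_right
  rw [sup_sdiff_self_right] at h1
  have := hν.mono (sdiff_le : b \ a ≤ b)
  linarith

open Classical in
/-- the counting lemma -/
theorem weight_le {A : Set B} {μ : B → ℝ} (hA : IsCompleteSubalgebra A) (hμ : IsMeasureOn A μ)
    {ι : Type} (w : ι → ℝ) (x : ι → B) (t : ℝ) (F : Finset ι) (hF : ∀ i ∈ F, x i ∈ A) :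
    ∀ a ∈ A, ∀ s : ℝ, (∀ e : B, e ≠ ⊥ → e ≤ a →
      s + ∑ i ∈ F with e ≤ x i, w i ≤ t) →
      s * μ a + ∑ i ∈ F, w i * μ (a ⊓ x i) ≤ t * μ a := by
  induction F using Finset.induction_on with
  | empty =>
    intro a ha s h
    by_cases hab : a = ⊥
    · subst hab
      simp [IsMeasureOn.bot hA hμ]
    · have h1 := h a hab le_rfl
      simp only [Finset.filter_empty, Finset.sum_empty, add_zero] at h1
      simp only [Finset.sum_empty, add_zero]
      exact mul_le_mul_of_nonneg_right h1 (hμ.nonneg a ha)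
  | insert j F hc ih =>
    intro a ha s h
    have hcA : x j ∈ A := hF j (Finset.mem_insert_self _ _)
    have hF' : ∀ d ∈ F, x d ∈ A := fun d hd => hF d (Finset.mem_insert_of_mem hd)
    have h1 := ih hF' (a ⊓ x j) (hA.inf_mem ha hcA) (s + w j) (by
      intro e he hea
      have h2 := h e he (hea.trans inf_le_left)
      have hec : e ≤ x j := hea.trans inf_le_right
      rw [Finset.filter_insert, if_pos hec, Finset.sum_insert (by simp [hc])] at h2
      linarith)
    have h2 := ih hF' (a \ x j) (hA.sdiff_mem ha hcA) s (by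
      intro e he hea
      have h2 := h e he (hea.trans sdiff_le)
      have hec : ¬ e ≤ x j := by
        intro hec
        apply he
        have h3 : Disjoint (a \ x j) (x j) := disjoint_sdiff_self_left
        have h4 := h3 hea hec
        exact le_bot_iff.1 h4
      rw [Finset.filter_insert, if_neg hec] at h2
      exact h2)
    rw [Finset.sum_insert hc]
    have hsplit : ∀ y ∈ A, μ (a ⊓ y) = μ (a ⊓ x j ⊓ y) + μ (a \ x j ⊓ y) := by
      intro y hy
      rw [← IsMeasureOn.add2 hA hμ (hA.inf_mem (hA.inf_mem ha hcA) hy)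
        (hA.inf_mem (hA.sdiff_mem ha hcA) hy)]
      · congr 1
        rw [← inf_sup_right, sup_inf_sdiff]
      · exact (disjoint_sdiff_self_right (x := x j) (y := a)).mono
          (inf_le_left.trans inf_le_right) inf_le_left
    have hsa : μ a = μ (a ⊓ x j) + μ (a \ x j) := by
      have := hsplit ⊤ hA.top_mem
      simpa using this
    have hsum : ∑ d ∈ F, w d * μ (a ⊓ x d) =
        ∑ d ∈ F, w d * μ (a ⊓ x j ⊓ x d) + ∑ d ∈ F, w d * μ (a \ x j ⊓ x d) := by
      rw [← Finset.sum_add_distrib]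
      refine Finset.sum_congr rfl fun d hd => ?_
      rw [hsplit (x d) (hF' d hd)]
      ring
    rw [hsum, hsa]
    nlinarith [h1, h2]

/-! ### Kelley's lemma -/

/-- points: prime ideals of `B` -/
def Pt (B : Type u) [CompleteBooleanAlgebra B] : Type u := {J : Order.Ideal B // J.IsPrime}

instance : TopologicalSpace (Pt B) := ⊥
instance : DiscreteTopology (Pt B) := ⟨rfl⟩

theorem exists_pt {b : B} (hb : b ≠ ⊥) : ∃ J : Pt B, b ∉ J.1 := by
  have hd : Disjoint ((Order.PFilter.principal b : Order.PFilter B) : Set B)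
      ((Order.Ideal.principal (⊥ : B) : Order.Ideal B) : Set B) := by
    rw [Set.disjoint_left]
    intro y hy hy2
    have h1 : b ≤ y := hy
    have h2 : y ≤ ⊥ := hy2
    exact hb (le_bot_iff.1 (h1.trans h2))
  obtain ⟨J, hJ, -, hdis⟩ := DistribLattice.prime_ideal_of_disjoint_filter_ideal hd
  refine ⟨⟨J, hJ⟩, fun hmem => ?_⟩
  exact Set.disjoint_left.1 hdis (show b ∈ ((Order.PFilter.principal b : Order.PFilter B) : Set B)
    from le_refl b) hmem

open Classical in
/-- the indicator of `b` on the points -/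
noncomputable def chi (b : B) : BoundedContinuousFunction (Pt B) ℝ :=
  BoundedContinuousFunction.ofNormedAddCommGroupDiscrete (fun J => if b ∈ J.1 then 0 else 1) 1
    (by intro J; split_ifs <;> simp)

open Classical in
theorem chi_apply (b : B) (J : Pt B) : chi b J = if b ∈ J.1 then 0 else 1 := rfl

theorem chi_nonneg (b : B) (J : Pt B) : 0 ≤ chi b J := by
  rw [chi_apply]; split_ifs <;> norm_num

theorem chi_le_one (b : B) (J : Pt B) : chi b J ≤ 1 := by
  rw [chi_apply]; split_ifs <;> norm_num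

theorem chi_add {a b : B} (hab : Disjoint a b) : chi (a ⊔ b) = chi a + chi b := by
  ext J
  rw [BoundedContinuousFunction.coe_add, Pi.add_apply, chi_apply, chi_apply, chi_apply]
  have h1 : a ∈ J.1 ∨ b ∈ J.1 := by
    apply J.2.mem_or_mem
    rw [hab.eq_bot]
    exact Order.Ideal.bot_mem _
  have h2 : a ⊔ b ∈ J.1 ↔ a ∈ J.1 ∧ b ∈ J.1 := Order.Ideal.sup_mem_iff
  by_cases ha : a ∈ J.1 <;> by_cases hb : b ∈ J.1
  · simp [h2, ha, hb]
  · simp [h2, ha, hb]
  · simp [h2, ha, hb]
  · exfalso; tauto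

open Classical in
/-- **Kelley's lemma** -/
theorem kelley (C : Set B) (δ : ℝ) (hδ : 0 < δ)
    (h : ∀ (ι : Type) (F : Finset ι) (w : ι → ℝ) (x : ι → B), (∀ i ∈ F, 0 ≤ w i) →
      ∑ i ∈ F, w i = 1 → (∀ i ∈ F, x i ∈ C) →
      ∃ e : B, e ≠ ⊥ ∧ δ ≤ ∑ i ∈ F with e ≤ x i, w i) :
    ∃ ν : B → ℝ, IsCharge ν ∧ ν ⊤ ≤ 1 ∧ ∀ c ∈ C, δ ≤ ν c := by
  rcases C.eq_empty_or_nonempty with rfl | ⟨c0, hc0⟩
  · exact ⟨fun _ => 0, ⟨fun _ => le_rfl, fun _ _ _ => by simp⟩, by norm_num, by simp⟩
  set D : Set (BoundedContinuousFunction (Pt B) ℝ) :=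
    {f | ∃ η : ℝ, 0 < η ∧ ∀ J, f J ≤ δ - η} with hD
  have hDconv : Convex ℝ D := by
    rintro f ⟨η, hη, hf⟩ g ⟨η', hη', hg⟩ a b ha hb hab
    refine ⟨a * η + b * η', ?_, fun J => ?_⟩
    · rcases ha.eq_or_lt with rfl | ha'
      · have : b = 1 := by linarith
        subst this; linarith
      · have := mul_pos ha' hη
        have := mul_nonneg hb hη'.le
        linarith
    · simp only [BoundedContinuousFunction.coe_add, BoundedContinuousFunction.coe_smul,
        Pi.add_apply, smul_eq_mul]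
      have h1 := mul_le_mul_of_nonneg_left (hf J) ha
      have h2 := mul_le_mul_of_nonneg_left (hg J) hb
      have h3 : a * δ + b * δ = δ := by rw [← add_mul, hab, one_mul]
      linarith
  have hDopen : IsOpen D := by
    rw [Metric.isOpen_iff]
    rintro f ⟨η, hη, hf⟩
    refine ⟨η / 2, by positivity, fun g hg => ⟨η / 2, by positivity, fun J => ?_⟩⟩
    have h1 : dist (g J) (f J) ≤ dist g f := BoundedContinuousFunction.dist_coe_le_dist J
    rw [Metric.mem_ball] at hg
    rw [Real.dist_eq] at h1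
    have h2 := le_abs_self (g J - f J)
    have h3 := hf J
    linarith
  set K : Set (BoundedContinuousFunction (Pt B) ℝ) := convexHull ℝ (chi '' C) with hK
  have hdisj : Disjoint D K := by
    rw [Set.disjoint_left]
    rintro f ⟨η, hη, hf⟩ hfK
    rw [hK, convexHull_eq] at hfK
    obtain ⟨ι, F, w, z, hw, hw1, hz, hcm⟩ := hfK
    have hz' : ∀ i, ∃ c : B, i ∈ F → c ∈ C ∧ chi c = z i := by
      intro i
      by_cases hi : i ∈ F
      · obtain ⟨c, hc, hcz⟩ := hz i hi
        exact ⟨c, fun _ => ⟨hc, hcz⟩⟩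
      · exact ⟨⊥, fun hi' => absurd hi' hi⟩
    choose x hx using hz'
    obtain ⟨e, he, hle⟩ := h ι F w x hw hw1 (fun i hi => (hx i hi).1)
    obtain ⟨J, hJ⟩ := exists_pt he
    have hval : f J = ∑ i ∈ F, w i * chi (x i) J := by
      rw [← hcm, Finset.centerMass_eq_of_sum_1 _ _ hw1]
      rw [BoundedContinuousFunction.coe_sum, Finset.sum_apply]
      refine Finset.sum_congr rfl fun i hi => ?_
      rw [(hx i hi).2]
      rfl
    have hge : ∑ i ∈ F with e ≤ x i, w i ≤ f J := by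
      rw [hval, Finset.sum_filter]
      refine Finset.sum_le_sum fun i hi => ?_
      split_ifs with hei
      · have : x i ∉ J.1 := fun hxi => hJ (J.1.lower hei hxi)
        rw [chi_apply, if_neg this, mul_one]
      · exact mul_nonneg (hw i hi) (chi_nonneg _ _)
    have := hf J
    linarith
  obtain ⟨L, u, hLD, hLK⟩ := geometric_hahn_banach_open hDconv hDopen (convex_convexHull ℝ _) hdisj
  have hu : 0 < u := by
    have h0 : (0 : BoundedContinuousFunction (Pt B) ℝ) ∈ D := ⟨δ, hδ, fun J => by simp⟩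
    have := hLD _ h0
    simpa using this
  have hLC : ∀ c ∈ C, u ≤ L (chi c) := fun c hc =>
    hLK _ (subset_convexHull ℝ _ ⟨c, hc, rfl⟩)
  have hLpos : ∀ g : BoundedContinuousFunction (Pt B) ℝ, (∀ J, 0 ≤ g J) → 0 ≤ L g := by
    intro g hg
    by_contra hneg
    push Not at hneg
    set s : ℝ := u / (- L g) with hs
    have hs0 : 0 < s := div_pos hu (by linarith)
    have hmem : (-s) • g ∈ D := by
      refine ⟨δ, hδ, fun J => ?_⟩
      simp only [BoundedContinuousFunction.coe_smul, smul_eq_mul]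
      have := mul_nonneg hs0.le (hg J)
      linarith
    have h1 := hLD _ hmem
    rw [map_smul, smul_eq_mul] at h1
    have h2 : -s * L g = u := by
      rw [hs]
      have h3 : L g ≠ 0 := hneg.ne
      rw [div_neg, neg_neg, div_mul_cancel₀ _ h3]
    linarith
  have hLtop : 0 < L (chi ⊤) := by
    have h1 : 0 ≤ L (chi ⊤ - chi c0) := by
      apply hLpos
      intro J
      simp only [BoundedContinuousFunction.coe_sub, Pi.sub_apply]
      have h2 : chi (⊤ : B) J = 1 := by
        rw [chi_apply, if_neg]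
        exact J.2.toIsProper.top_notMem
      rw [h2]
      have := chi_le_one c0 J
      linarith
    rw [map_sub] at h1
    have := hLC c0 hc0
    linarith
  have hLle : δ * L (chi ⊤) ≤ u := by
    have h1 : ∀ η : ℝ, 0 < η → (δ - η) * L (chi ⊤) ≤ u := by
      intro η hη
      by_cases hneg : δ - η ≤ 0
      · nlinarith
      · push Not at hneg
        have hmem : (δ - η) • chi (⊤ : B) ∈ D := by
          refine ⟨η, hη, fun J => ?_⟩
          simp only [BoundedContinuousFunction.coe_smul, smul_eq_mul]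
          have := chi_le_one (⊤ : B) J
          nlinarith
        have h1 := hLD _ hmem
        rw [map_smul, smul_eq_mul] at h1
        exact h1.le
    have h2 : Tendsto (fun η : ℝ => (δ - η) * L (chi ⊤)) (𝓝[>] 0) (𝓝 ((δ - 0) * L (chi ⊤))) := by
      apply Tendsto.mono_left _ nhdsWithin_le_nhds
      exact ((tendsto_const_nhds.sub tendsto_id).mul_const _)
    rw [sub_zero] at h2
    refine le_of_tendsto h2 ?_
    filter_upwards [self_mem_nhdsWithin] with η hη
    exact h1 η hη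
  refine ⟨fun b => L (chi b) / L (chi ⊤), ⟨fun a => ?_, fun a b hab => ?_⟩, ?_, fun c hc => ?_⟩
  · exact div_nonneg (hLpos _ (chi_nonneg a)) hLtop.le
  · rw [chi_add hab, map_add, add_div]
  · exact (div_self hLtop.ne').le
  · rw [le_div_iff₀ hLtop]
    exact hLle.trans (hLC c hc)

/-! ### the charges `ν n` and their combination -/

open Classical in
theorem exists_charge {m : B → ℝ} (hm : IsContinuousOuterMeasure m)
    (hsub : ∀ S : Set B, S.Countable → ∃ μ : B → ℝ, IsMeasureOn (generated S) μ)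
    {ε : ℝ} (hε : 0 < ε) :
    ∃ ν : B → ℝ, IsCharge ν ∧ ν ⊤ ≤ 1 ∧ ∃ δ : ℝ, 0 < δ ∧ ∀ c, ε ≤ m c → δ ≤ ν c := by
  by_contra hcon
  push Not at hcon
  -- for each `k` there is a finite weighted family of small overlap
  have hk : ∀ k : ℕ, ∃ (ι : Type) (F : Finset ι) (w : ι → ℝ) (x : ι → B), (∀ i ∈ F, 0 ≤ w i) ∧
      ∑ i ∈ F, w i = 1 ∧ (∀ i ∈ F, ε ≤ m (x i)) ∧
      ∀ e : B, e ≠ ⊥ → ∑ i ∈ F with e ≤ x i, w i ≤ 1 / ((k : ℝ) + 1) := by
    intro k
    by_contra hno
    have hpos : (0 : ℝ) < 1 / ((k : ℝ) + 1) := by positivity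
    obtain ⟨ν, h1, h2, h3⟩ := kelley {c : B | ε ≤ m c} (1 / ((k : ℝ) + 1)) hpos (by
      intro ι F w x hw hw1 hx
      by_contra hne
      apply hno
      refine ⟨ι, F, w, x, hw, hw1, hx, fun e he => ?_⟩
      by_contra hlt
      exact hne ⟨e, he, (not_le.1 hlt).le⟩)
    obtain ⟨c, hc1, hc2⟩ := hcon ν h1 h2 _ hpos
    exact absurd (h3 c hc1) (not_le.2 hc2)
  choose ι F w x hw hw1 hx hsmall using hk
  set S : Set B := ⋃ k, x k '' (F k : Set (ι k)) with hS
  have hScount : S.Countable :=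
    Set.countable_iUnion fun k => ((F k).countable_toSet).image _
  obtain ⟨μ, hμ⟩ := hsub S hScount
  have hA := generated_isCompleteSubalgebra S
  obtain ⟨δ, hδ, hδle⟩ := abs_cont hm hA hμ hε
  have hmem : ∀ k, ∀ i ∈ F k, x k i ∈ generated S := fun k i hi =>
    generated_sub S (Set.mem_iUnion.2 ⟨k, i, hi, rfl⟩)
  -- the total measure
  have key : ∀ k : ℕ, δ ≤ 1 / ((k : ℝ) + 1) * μ ⊤ := by
    intro k
    have h1 := weight_le hA hμ (w k) (x k) (1 / ((k : ℝ) + 1)) (F k) (hmem k) ⊤ hA.top_mem 0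
      (fun e he _ => by simpa using hsmall k e he)
    simp only [zero_mul, zero_add, top_inf_eq] at h1
    refine le_trans ?_ h1
    calc δ = ∑ i ∈ F k, w k i * δ := by rw [← Finset.sum_mul, hw1, one_mul]
      _ ≤ ∑ i ∈ F k, w k i * μ (x k i) := by
          refine Finset.sum_le_sum fun i hi => ?_
          exact mul_le_mul_of_nonneg_left (hδle _ (hmem k i hi) (hx k i hi)) (hw k i hi)
  have hlim : Tendsto (fun k : ℕ => 1 / ((k : ℝ) + 1) * μ ⊤) atTop (𝓝 (0 * μ ⊤)) :=
    tendsto_one_div_add_atTop_nhds_zero_nat.mul_const _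
  have := ge_of_tendsto' hlim key
  linarith

theorem exists_pos_charge {m : B → ℝ} (hm : IsContinuousOuterMeasure m)
    (hsub : ∀ S : Set B, S.Countable → ∃ μ : B → ℝ, IsMeasureOn (generated S) μ) :
    ∃ ν : B → ℝ, IsCharge ν ∧ ∀ c, c ≠ ⊥ → 0 < ν c := by
  have h : ∀ n : ℕ, ∃ ν : B → ℝ, IsCharge ν ∧ ν ⊤ ≤ 1 ∧ ∃ δ : ℝ, 0 < δ ∧
      ∀ c, 1 / ((n : ℝ) + 1) ≤ m c → δ ≤ ν c := fun n =>
    exists_charge hm hsub (by positivity)
  choose ν hν htop δ hδ hle using h
  have hbd : ∀ n c, ν n c ≤ 1 := fun n c => ((hν n).mono le_top).trans (htop n)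
  have hsum : ∀ c, Summable fun n : ℕ => (1 / 2 : ℝ) ^ n * ν n c := by
    intro c
    refine Summable.of_nonneg_of_le (fun n => mul_nonneg (by positivity) ((hν n).nonneg c))
      (fun n => ?_) summable_geometric_two
    have := hbd n c
    have h2 : (0 : ℝ) < (1 / 2 : ℝ) ^ n := by positivity
    nlinarith
  refine ⟨fun c => ∑' n : ℕ, (1 / 2 : ℝ) ^ n * ν n c, ⟨fun a => ?_, fun a b hab => ?_⟩,
    fun c hc => ?_⟩
  · exact tsum_nonneg fun n => mul_nonneg (by positivity) ((hν n).nonneg a)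
  · rw [← (hsum a).tsum_add (hsum b)]
    refine tsum_congr fun n => ?_
    rw [(hν n).add a b hab]
    ring
  · obtain ⟨n, hn⟩ := exists_nat_one_div_lt (hm.pos c hc)
    have h1 : δ n ≤ ν n c := hle n c hn.le
    have h2 : (1 / 2 : ℝ) ^ n * ν n c ≤ ∑' n : ℕ, (1 / 2 : ℝ) ^ n * ν n c :=
      (hsum c).le_tsum n fun j _ => mul_nonneg (by positivity) ((hν j).nonneg c)
    have h3 : 0 < (1 / 2 : ℝ) ^ n * ν n c := mul_pos (by positivity) ((hδ n).trans_le h1)
    linarith

/-! ### countable subadditivity of `m` -/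

theorem IsContinuousOuterMeasure.iSup_le {m : B → ℝ} (hm : IsContinuousOuterMeasure m)
    (f : ℕ → B) (c : ℕ → ℝ) (hc : ∀ n, m (f n) ≤ c n) (s : ℝ) (hs : HasSum c s) :
    m (⨆ n, f n) ≤ s := by
  have hc0 : ∀ n, 0 ≤ c n := fun n => (hm.nonneg _).trans (hc n)
  set p : ℕ → B := fun N => ⨆ i : Fin N, f i with hp
  have hpm : Monotone p := by
    intro a b hab
    exact _root_.iSup_le fun i => le_iSup_of_le (⟨i.1, i.2.trans_le hab⟩ : Fin b) le_rfl
  have hpf : ∀ N, m (p N) ≤ ∑ i ∈ Finset.range N, c i := by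
    intro N
    induction N with
    | zero =>
      have : p 0 = ⊥ := by simp [hp]
      rw [this, hm.bot]
      simp
    | succ N ih =>
      have h1 : p (N + 1) ≤ p N ⊔ f N := by
        refine _root_.iSup_le fun i => ?_
        rcases Nat.lt_succ_iff_lt_or_eq.1 i.2 with h | h
        · exact le_sup_of_le_left (le_iSup_of_le (⟨i.1, h⟩ : Fin N) le_rfl)
        · rw [h]; exact le_sup_right
      rw [Finset.sum_range_succ]
      exact ((hm.mono _ _ h1).trans (hm.sup_le _ _)).trans (add_le_add ih (hc N))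
  have hanti : Antitone fun N => (⨆ n, f n) \ p N := fun a b hab => sdiff_le_sdiff_left (hpm hab)
  have hinf : (⨅ N, (⨆ n, f n) \ p N) = ⊥ := by
    have h1 : (⨆ N, p N) = ⨆ n, f n := by
      apply le_antisymm
      · exact _root_.iSup_le fun N => _root_.iSup_le fun i => le_iSup f i
      · refine _root_.iSup_le fun n => le_iSup_of_le (n + 1) ?_
        exact le_iSup_of_le (⟨n, Nat.lt_succ_self n⟩ : Fin (n + 1)) le_rfl
    have h2 : (⨅ N, (⨆ n, f n) \ p N) ≤ (⨆ n, f n) \ (⨆ N, p N) := by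
      simp only [sdiff_eq, compl_iSup]
      refine le_inf ((iInf_le _ 0).trans inf_le_left) ?_
      exact le_iInf fun N => (iInf_le _ N).trans (inf_le_right.trans (by simp))
    rw [h1, sdiff_self] at h2
    exact le_bot_iff.1 h2
  have hlim := hm.cont _ hanti hinf
  have hle : ∀ N, m (⨆ n, f n) ≤ m ((⨆ n, f n) \ p N) + s := by
    intro N
    have h1 : (⨆ n, f n) ≤ ((⨆ n, f n) \ p N) ⊔ p N := le_sdiff_sup
    have h2 : ∑ i ∈ Finset.range N, c i ≤ s := sum_le_hasSum _ (fun i _ => hc0 i) hs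
    have h3 := (hm.mono _ _ h1).trans (hm.sup_le _ _)
    have h4 := hpf N
    linarith
  have := ge_of_tendsto' (hlim.add_const s) hle
  linarith

/-! ### the countably additive part -/

/-- the countably additive part of a charge -/
noncomputable def cpart (ν : B → ℝ) (a : B) : ℝ :=
  sInf {s : ℝ | ∃ f : ℕ → B, Monotone f ∧ (⨆ k, f k) = a ∧ ∀ k, ν (f k) ≤ s}

section cpart

variable {ν : B → ℝ} (hν : IsCharge ν)
include hν

theorem cpart_bdd (a : B) :
    BddBelow {s : ℝ | ∃ f : ℕ → B, Monotone f ∧ (⨆ k, f k) = a ∧ ∀ k, ν (f k) ≤ s} :=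
  ⟨0, by rintro s ⟨f, -, -, hf⟩; exact (hν.nonneg _).trans (hf 0)⟩

theorem cpart_nonempty (a : B) :
    {s : ℝ | ∃ f : ℕ → B, Monotone f ∧ (⨆ k, f k) = a ∧ ∀ k, ν (f k) ≤ s}.Nonempty :=
  ⟨ν a, fun _ => a, monotone_const, by simp, fun _ => le_rfl⟩

theorem cpart_nonneg (a : B) : 0 ≤ cpart ν a :=
  Real.sInf_nonneg (by rintro s ⟨f, -, -, hf⟩; exact (hν.nonneg _).trans (hf 0))

theorem cpart_le {a : B} {s : ℝ} (f : ℕ → B) (h1 : Monotone f) (h2 : (⨆ k, f k) = a)
    (h3 : ∀ k, ν (f k) ≤ s) : cpart ν a ≤ s :=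
  csInf_le (cpart_bdd hν a) ⟨f, h1, h2, h3⟩

theorem exists_of_lt {a : B} {s : ℝ} (h : cpart ν a < s) :
    ∃ f : ℕ → B, Monotone f ∧ (⨆ k, f k) = a ∧ ∀ k, ν (f k) ≤ s := by
  obtain ⟨s', ⟨f, h1, h2, h3⟩, hlt⟩ := exists_lt_of_csInf_lt (cpart_nonempty hν a) h
  exact ⟨f, h1, h2, fun k => (h3 k).trans hlt.le⟩

/-- superadditivity for two disjoint elements -/
theorem cpart_sup_ge {a b : B} (hab : Disjoint a b) :
    cpart ν a + cpart ν b ≤ cpart ν (a ⊔ b) := by
  refine le_csInf (cpart_nonempty hν _) ?_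
  rintro s ⟨f, h1, h2, h3⟩
  -- values along `f ⊓ a`, `f ⊓ b` converge
  have ha : (⨆ k, f k ⊓ a) = a := by
    rw [← iSup_inf_eq, h2, inf_eq_right.2 le_sup_left]
  have hb : (⨆ k, f k ⊓ b) = b := by
    rw [← iSup_inf_eq, h2, inf_eq_right.2 le_sup_right]
  have hma : Monotone fun k => f k ⊓ a := fun i j hij => inf_le_inf_right _ (h1 hij)
  have hmb : Monotone fun k => f k ⊓ b := fun i j hij => inf_le_inf_right _ (h1 hij)
  have hbd : BddAbove (Set.range fun k => ν (f k ⊓ a)) :=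
    ⟨ν ⊤, by rintro _ ⟨k, rfl⟩; exact hν.mono le_top⟩
  have hbdb : BddAbove (Set.range fun k => ν (f k ⊓ b)) :=
    ⟨ν ⊤, by rintro _ ⟨k, rfl⟩; exact hν.mono le_top⟩
  have hca : cpart ν a ≤ ⨆ k, ν (f k ⊓ a) := cpart_le hν _ hma ha fun k => le_ciSup hbd k
  have hcb : cpart ν b ≤ ⨆ k, ν (f k ⊓ b) := cpart_le hν _ hmb hb fun k => le_ciSup hbdb k
  have hta : Tendsto (fun k => ν (f k ⊓ a)) atTop (𝓝 (⨆ k, ν (f k ⊓ a))) :=
    tendsto_atTop_ciSup (fun i j hij => hν.mono (hma hij)) hbd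
  have htb : Tendsto (fun k => ν (f k ⊓ b)) atTop (𝓝 (⨆ k, ν (f k ⊓ b))) :=
    tendsto_atTop_ciSup (fun i j hij => hν.mono (hmb hij)) hbdb
  have hle : ∀ k, ν (f k ⊓ a) + ν (f k ⊓ b) ≤ s := by
    intro k
    rw [← hν.add _ _ (hab.mono inf_le_right inf_le_right), ← inf_sup_left]
    exact (hν.mono inf_le_left).trans (h3 k)
  have := le_of_tendsto' (hta.add htb) hle
  linarith

theorem cpart_mono {a b : B} (h : a ≤ b) : cpart ν a ≤ cpart ν b := by
  have h1 := cpart_sup_ge hν (disjoint_sdiff_self_right : Disjoint a (b \ a))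
  rw [sup_sdiff_cancel_right h] at h1
  have := cpart_nonneg hν (b \ a)
  linarith

/-- superadditivity for finitely many -/
theorem cpart_sum_le (f : ℕ → B) (hf : ∀ i j, i ≠ j → Disjoint (f i) (f j)) (N : ℕ) :
    ∑ n ∈ Finset.range N, cpart ν (f n) ≤ cpart ν (⨆ i : Fin N, f i) := by
  induction N with
  | zero => simpa using cpart_nonneg hν _
  | succ N ih =>
    rw [Finset.sum_range_succ]
    have hdis : Disjoint (⨆ i : Fin N, f i) (f N) := by
      rw [iSup_disjoint_iff]
      exact fun i => hf _ _ i.2.ne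
    have h1 := cpart_sup_ge hν hdis
    have h2 : (⨆ i : Fin N, f i) ⊔ f N ≤ ⨆ i : Fin (N + 1), f i := by
      refine sup_le (iSup_le fun i => ?_) ?_
      · exact le_iSup_of_le (⟨i.1, i.2.trans (Nat.lt_succ_self N)⟩ : Fin (N + 1)) le_rfl
      · exact le_iSup_of_le (⟨N, Nat.lt_succ_self N⟩ : Fin (N + 1)) le_rfl
    have h3 := cpart_mono hν h2
    linarith

/-- countable subadditivity -/
theorem cpart_iSup_le (f : ℕ → B) (s : ℝ) (hs : HasSum (fun n => cpart ν (f n)) s) :
    cpart ν (⨆ n, f n) ≤ s := by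
  refine le_of_forall_pos_le_add fun ε hε => ?_
  have hg : ∀ n, ∃ g : ℕ → B, Monotone g ∧ (⨆ k, g k) = f n ∧
      ∀ k, ν (g k) ≤ cpart ν (f n) + ε / 2 * (1 / 2 : ℝ) ^ n := fun n =>
    exists_of_lt hν (lt_add_of_pos_right _ (by positivity))
  choose g hg1 hg2 hg3 using hg
  set b : ℕ → B := fun k => ⨆ i : Fin k, g i k with hb
  have hbm : Monotone b := by
    intro k l hkl
    exact iSup_le fun i => le_iSup_of_le (⟨i.1, i.2.trans_le hkl⟩ : Fin l) (hg1 _ hkl)
  have hbs : (⨆ k, b k) = ⨆ n, f n := by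
    apply le_antisymm
    · refine iSup_le fun k => iSup_le fun i => ?_
      refine le_iSup_of_le (i : ℕ) ?_
      rw [← hg2]
      exact le_iSup (g i) k
    · refine iSup_le fun n => ?_
      rw [← hg2]
      refine iSup_le fun k => le_iSup_of_le (max k (n + 1)) ?_
      refine le_iSup_of_le (⟨n, by omega⟩ : Fin (max k (n + 1))) ?_
      exact hg1 _ (le_max_left _ _)
  have hsum : HasSum (fun n => cpart ν (f n) + ε / 2 * (1 / 2 : ℝ) ^ n) (s + ε / 2 * 2) :=
    hs.add (hasSum_geometric_two.mul_left _)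
  have hfin : ∀ k l : ℕ, ν (⨆ i : Fin k, g i l) ≤
      ∑ n ∈ Finset.range k, (cpart ν (f n) + ε / 2 * (1 / 2 : ℝ) ^ n) := by
    intro k l
    induction k with
    | zero =>
      have : (⨆ i : Fin 0, g i l) = ⊥ := by simp
      rw [this, hν.bot]
      simp
    | succ k ih =>
      have h1 : (⨆ i : Fin (k + 1), g i l) ≤ (⨆ i : Fin k, g i l) ⊔ g k l := by
        refine iSup_le fun i => ?_
        rcases Nat.lt_succ_iff_lt_or_eq.1 i.2 with h | h
        · exact le_sup_of_le_left (le_iSup_of_le (⟨i.1, h⟩ : Fin k) le_rfl)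
        · rw [h]; exact le_sup_right
      rw [Finset.sum_range_succ]
      exact ((hν.mono h1).trans (hν.sup_le _ _)).trans (add_le_add ih (hg3 k l))
  refine cpart_le hν b hbm hbs fun k => ?_
  have h1 : ∑ n ∈ Finset.range k, (cpart ν (f n) + ε / 2 * (1 / 2 : ℝ) ^ n) ≤ s + ε / 2 * 2 :=
    sum_le_hasSum _ (fun n _ => add_nonneg (cpart_nonneg hν _) (by positivity)) hsum
  have h2 := hfin k k
  linarith

theorem cpart_hasSum (f : ℕ → B) (hf : ∀ i j, i ≠ j → Disjoint (f i) (f j)) :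
    HasSum (fun n => cpart ν (f n)) (cpart ν (⨆ n, f n)) := by
  have hle : ∀ N, ∑ n ∈ Finset.range N, cpart ν (f n) ≤ cpart ν (⨆ n, f n) := fun N =>
    (cpart_sum_le hν f hf N).trans (cpart_mono hν (iSup_le fun i => le_iSup f i))
  have hsum : Summable fun n => cpart ν (f n) :=
    summable_of_sum_range_le (fun n => cpart_nonneg hν _) hle
  have h1 : cpart ν (⨆ n, f n) ≤ ∑' n, cpart ν (f n) := cpart_iSup_le hν f _ hsum.hasSum
  have h2 : ∑' n, cpart ν (f n) ≤ cpart ν (⨆ n, f n) :=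
    Real.tsum_le_of_sum_range_le (fun n => cpart_nonneg hν _) hle
  have := hsum.hasSum
  rwa [le_antisymm h2 h1] at this

theorem cpart_pos {m : B → ℝ} (hm : IsContinuousOuterMeasure m) (hpos : ∀ c, c ≠ ⊥ → 0 < ν c)
    {a : B} (ha : a ≠ ⊥) : 0 < cpart ν a := by
  by_contra hcon
  have hle : cpart ν a ≤ 0 := not_lt.1 hcon
  have hma := hm.pos a ha
  have hg : ∀ j : ℕ, ∃ g : ℕ → B, Monotone g ∧ (⨆ k, g k) = a ∧
      ∀ k, ν (g k) ≤ (1 / 2 : ℝ) ^ j := fun j =>
    exists_of_lt hν (hle.trans_lt (by positivity))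
  choose g hg1 hg2 hg3 using hg
  have hk : ∀ j : ℕ, ∃ k, m (a \ g j k) ≤ m a / 4 * (1 / 2 : ℝ) ^ j := by
    intro j
    have hanti : Antitone fun k => a \ g j k := fun x y hxy => sdiff_le_sdiff_left (hg1 j hxy)
    have hinf : (⨅ k, a \ g j k) = ⊥ := by
      have h2 : (⨅ k, a \ g j k) ≤ a \ (⨆ k, g j k) := by
        simp only [sdiff_eq, compl_iSup]
        refine le_inf ((iInf_le _ 0).trans inf_le_left) ?_
        exact le_iInf fun N => (iInf_le _ N).trans inf_le_right
      rw [hg2, sdiff_self] at h2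
      exact le_bot_iff.1 h2
    have hlim := hm.cont _ hanti hinf
    have hp : 0 < m a / 4 * (1 / 2 : ℝ) ^ j := by positivity
    obtain ⟨k, hk⟩ := (hlim.eventually (gt_mem_nhds hp)).exists
    exact ⟨k, hk.le⟩
  choose k hk using hk
  set b : B := ⨅ j, g j (k j) with hb
  have hba : b ≤ a := (iInf_le _ 0).trans ((le_iSup (g 0) (k 0)).trans (hg2 0).le)
  have hdiff : a \ b ≤ ⨆ j, a \ g j (k j) := by
    rw [sdiff_eq, hb, compl_iInf, inf_iSup_eq]
    exact iSup_mono fun j => by rw [sdiff_eq]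
  have h1 : m (⨆ j, a \ g j (k j)) ≤ m a / 4 * 2 :=
    hm.iSup_le _ (fun j => m a / 4 * (1 / 2 : ℝ) ^ j) hk _ (hasSum_geometric_two.mul_left _)
  have h2 : m a ≤ m b + m (a \ b) := by
    have : a ≤ b ⊔ a \ b := le_sup_sdiff
    exact (hm.mono _ _ this).trans (hm.sup_le _ _)
  have h3 := hm.mono _ _ hdiff
  have hb0 : b ≠ ⊥ := by
    intro h0
    rw [h0, hm.bot] at h2
    linarith [h0 ▸ h3]
  have hνb := hpos b hb0
  have hνle : ∀ j, ν b ≤ (1 / 2 : ℝ) ^ j := fun j =>
    (hν.mono (iInf_le _ j)).trans (hg3 j (k j))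
  have hlim : Tendsto (fun j : ℕ => (1 / 2 : ℝ) ^ j) atTop (𝓝 0) :=
    tendsto_pow_atTop_nhds_zero_of_lt_one (by norm_num) (by norm_num)
  have := ge_of_tendsto' hlim hνle
  linarith

end cpart

/-- **Main theorem.** -/
theorem main {m : B → ℝ} (hm : IsContinuousOuterMeasure m)
    (hsub : ∀ S : Set B, S.Countable → ∃ μ : B → ℝ, IsMeasureOn (generated S) μ) :
    ∃ μ : B → ℝ, IsMeasureOn (Set.univ : Set B) μ := by
  obtain ⟨ν, hν, hpos⟩ := exists_pos_charge hm hsub
  exact ⟨cpart ν, fun a _ => cpart_nonneg hν a, fun a _ ha => cpart_pos hν hm hpos ha,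
    fun f _ hf => cpart_hasSum hν f hf⟩

end H429.MB
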